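import Mathlib
import Pool.Agent.T9h37.DP.Min
import Pool.Agent.Y205.AV.Large
import Pool.Agent.Y939.NC.Reg

set_option autoImplicit false

/-!
# Minimal counterexamples

Let `k` be an algebraically closed field of characteristic zero, and let `C` be a prime divisor with
`h¹(C) ≠ 0` on the blow-up of the plane at `s ≥ 4` generic points, of class `d H - ∑ w i E i`. Then there is
a prime divisor `C1` on the blow-up at `n` generic points, of class `e H - ∑ u i E i`, with

* `10 ≤ n ≤ s`, `e ≤ d`, the `u i` at most `n` different ones of the `w i`, and `h¹(C1) = h¹(C)`;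
* the class is standard (`e` is at least the sum of any three `u i`) and `∑ u i ≥ 3 e + 6`;
* for each `i`, `u i ≥ 3` and `h⁰(C1) - h⁰(C1 - E i) < u i`: the tangent cones at the point `i` of the
  curves in `|C1|` span a space of dimension less than `u i`; if `C1 ^ 2 < 0` then `u i ≥ 4`;
* `2 h⁰(C1) ≤ C1 ^ 2 + 4` if `h⁰(C1) ≥ 2`;
* the class is neither `Large` nor `Good`.

So `C` can be reduced by quadratic transformations and by the removal of points to a counterexample
without points of multiplicity one and two.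

A class `(d; w)` is `Large` (`Pool.Agent.Y205.AV.Large`) if there are a set `S` of points and numbers
`μ`, `t` such that `w i ≤ μ` for `i ∈ S`, `w i ≤ 1` for `i ∉ S`, and with
`χ = (d + 2).choose 2 - ∑_S (w i + 1).choose 2`
* `∑_S w i + 4 |χ| ≥ 25000 (μ + 1) ^ 2`, or
* `|χ| ≥ ∑_S w i + 26 (μ + 1) ^ 2`, or
* `∑_S w i ^ 2 ≥ 40000 t μ ^ 2`, `S` is not empty, `w i ≥ 1` on `S`, with at most `t` values there.

It is `Good` (`Pool.Agent.Y939.NC.Good`) if `√k d < ∑ w` on some `k ≥ 10` of the points, or if it is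
below a regular vector, or if `d` is large and there are at most five large multiplicities.
-/

namespace Pool.Agent.Results.MP_0dccba_ag.MinimalCounterexamples

open MvPolynomial Pool.Agent.TH167 Pool.Agent.TH167.SHDefs
open Pool.Agent.Y536.SH (Standard)
open Pool.Agent.Y205.AV (Large)
open Pool.Agent.Y939.NC (Good)

/-- `h⁰` of the class `d H - ∑ w i E i`. -/
noncomputable def hZero {k : Type} [Field k] {s : ℕ} (P : Fin s → Fin 2 → k) (d : ℕ)
    (w : Fin s → ℕ) : ℤ := dimL P d w + 1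

/-- `h¹` of the class `d H - ∑ w i E i`: the dimension of the linear system minus the virtual one. -/
noncomputable def hOne {k : Type} [Field k] {s : ℕ} (P : Fin s → Fin 2 → k) (d : ℕ)
    (w : Fin s → ℕ) : ℤ := dimL P d w - virtdim d w

theorem result : ∃ N0 : ℕ, ∀ (k : Type) [Field k] [CharZero k] [IsAlgClosed k] (s : ℕ), 4 ≤ s →
    ∀ P : Fin s → Fin 2 → k,
      AlgebraicIndependent ℚ (fun ij : Fin s × Fin 2 => P ij.1 ij.2) →
      ∀ (d : ℕ) (w : Fin s → ℕ) (C : MvPolynomial (Fin 3) k), Curve P C d w →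
        hOne P d w ≠ 0 →
        ∃ (n : ℕ) (Q : Fin n → Fin 2 → k) (e : ℕ) (u : Fin n → ℕ) (C1 : MvPolynomial (Fin 3) k),
          AlgebraicIndependent ℚ (fun ij : Fin n × Fin 2 => Q ij.1 ij.2) ∧ Curve Q C1 e u ∧
          hOne Q e u = hOne P d w ∧
          10 ≤ n ∧ e ≤ d ∧ (∃ f : Fin n → Fin s, Function.Injective f ∧ ∀ i, u i ≤ w (f i)) ∧
          Standard e u ∧ 3 * e + 6 ≤ ∑ i, u i ∧
          (∀ i, 3 ≤ u i ∧ hZero Q e u < hZero Q e (Function.update u i (u i + 1)) + u i) ∧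
          (inter e u e u < 0 → ∀ i, 4 ≤ u i) ∧
          (2 ≤ hZero Q e u → 2 * hZero Q e u ≤ inter e u e u + 4) ∧
          ¬ Large e u ∧ ¬ Good N0 e u := by
  classical
  obtain ⟨N0, hN0⟩ := Pool.Agent.Y939.NC.reg_exp
  refine ⟨N0, fun k _ _ _ s hs P hP d w C hC hne => ?_⟩
  obtain ⟨r, rfl⟩ : ∃ r, s = r + 4 := ⟨s - 4, by omega⟩
  obtain ⟨h1, h2, h3⟩ := SH.curve_iff.1 hC
  have hsp : ∀ (n : ℕ) (Q : Fin n → Fin 2 → k) (e : ℕ) (u : Fin n → ℕ),
      hOne Q e u = T9h37.DP.sp Q e u := by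
    intro n Q e u
    unfold hOne T9h37.DP.sp
    rw [SH.dimL_eq, SH.virtdim_eq]
    ring
  have hz : ∀ (n : ℕ) (Q : Fin n → Fin 2 → k) (e : ℕ) (u : Fin n → ℕ), hZero Q e u =
      (Module.finrank k ↥(W609.CR.VS (fun j => W609.CR.aff (Q j)) u e) : ℤ) := by
    intro n Q e u
    unfold hZero
    rw [SH.dimL_eq]
    ring
  obtain ⟨m, Q, e, u, G, b1, b2, b3, b4, b5, b6, b7, b8, b9, b10, b11⟩ :=
    T9h37.DP.minimal r r le_rfl d w P hP C h1 h2 h3 (by rw [← hsp]; exact hne)
  have hne1 : T9h37.DP.sp Q e u ≠ 0 := by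
    rw [b5, ← hsp]
    exact hne
  have hnn := T9h37.DP.sp_nonneg Q e u
  have hpos := TT.pos_of_mem ((SH.mem_VS _ _ _ _).2 ⟨b3, fun j => (b4 j).1⟩) b2.ne_zero
  have hexp : ¬ H932R3.ExpDim k u Q e := by
    intro h
    rw [N108.SG.Lv.expDim_iff] at h
    apply hne1
    unfold T9h37.DP.sp
    have h5 : (0 : ℤ) < Module.finrank k ↥(W609.CR.VS (fun j => W609.CR.aff (Q j)) u e) := by
      exact_mod_cast hpos
    omega
  refine ⟨m + 4, Q, e, u, G, b1, SH.curve_iff.2 ⟨b2, b3, b4⟩, ?_, b8, b10, b11, b6, b9,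
    fun i => ?_, fun hneg i => ?_, fun h0 => ?_, fun h => ?_, fun h => ?_⟩
  · rw [hsp, hsp, b5]
  · have h4 := b7 i
    have h5 := T9h37.DP.rk_add Q e u i
    refine ⟨by omega, ?_⟩
    rw [hz, hz]
    have h6 : Module.finrank k ↥(W609.CR.VS (fun j => W609.CR.aff (Q j)) u e) <
        Module.finrank k ↥(W609.CR.VS (fun j => W609.CR.aff (Q j))
          (Function.update u i (u i + 1)) e) + u i := by omega
    exact_mod_cast h6
  · rw [SH.inter_eq] at hneg
    have hnm : ¬ (SH.ip e u e u = -1 ∧ SH.kk e u = 1) := by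
      intro h
      have h4 := h.2
      rw [SH.kk_cast] at h4
      have h5 : ((3 * e + 6 : ℕ) : ℤ) ≤ ((∑ j, u j : ℕ) : ℤ) := by exact_mod_cast b9
      push_cast at h4 h5
      linarith
    have h4 := b7 i
    rcases CL.neg_cl b1 b2 b3 b4 hneg hnm with h | ⟨-, j0, h5, h6⟩
    · exact h i (by omega)
    · have := b7 j0
      omega
  · have h4 := T9h37.DP.clifford2 b1 b2 b3 b4 ∅ (Or.inl (by
      rw [hz] at h0
      exact_mod_cast h0))
    rw [Finset.sum_empty, Finset.sum_empty, Finset.sum_empty] at h4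
    rw [hz, SH.inter_eq]
    rcases h4 with h4 | h4
    · exact absurd (le_antisymm h4 hnn) hne1
    · push_cast at h4
      linarith
  · exact hexp (Pool.Agent.Y205.AV.large_exp h b1)
  · exact hexp (Pool.Agent.Y939.NC.good_exp hN0 (by omega) b6 h b1)

end Pool.Agent.Results.MP_0dccba_ag.MinimalCounterexamples
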