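import Mathlib
import Pool.Agent.T9h37.DP.Min
import Pool.Agent.T9h37.DP.FinRed

set_option autoImplicit false

/-!
# Prime divisors of bounded canonical degree at the points with degenerate tangent cones

Let `C` be a prime divisor on the blow-up of the plane at `s ≥ 4` generic points (characteristic
zero), of class `d H - ∑ w i E i`. Let `B(C)` be the set of the points with
`w i > max 2 (h⁰(C) - h⁰(C - E i))`: their multiplicity is at least three, and their tangent cones span a
space of dimension less than `w i`.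

Let `κ` be any number. If the classes of a finite list, which depends only on `κ`, are nonspecial (there
is none for `κ ≤ 5`), then `h¹(C) = 0`, and `C` is a `(-1)`-curve if `C ^ 2 < 0`, for all `s` and
all prime divisors with `∑_{i ∈ B(C)} w i ≤ 3 d + κ`, and in particular for all prime divisors with
`∑_{w i ≥ 3} w i ≤ 3 d + κ` and any number of further simple and double points.

The finite list (`Remaining c`, `6 ≤ c ≤ κ`): at least ten points, decreasing multiplicities, all at least
two and the first ten at least three, `d ≥ m₁ + m₂ + m₃`, `∑ mᵢ = 3 d + c`, `d ≤ 2 (c + 6) ^ 2`, and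
`1 ≤ t ≤ 4 c` and `χ < t` for `t = 3 d - (m₁ + ⋯ + m₉)`.
-/

namespace Pool.Agent.Results.MP_0dccba_ag.PrimeCanonicalDegree

open MvPolynomial Pool.Agent.TH167 Pool.Agent.TH167.SHDefs
open Pool.Agent.Results.MP_d3128a_ag.CanonicalDegreeFive (Remaining NonSpecial)

/-- `h⁰` of the class `d H - ∑ w i E i`. -/
noncomputable def hZero {k : Type} [Field k] {s : ℕ} (P : Fin s → Fin 2 → k) (d : ℕ)
    (w : Fin s → ℕ) : ℤ := dimL P d w + 1

/-- `h¹` of the class `d H - ∑ w i E i`: the dimension of the linear system minus the virtual one. -/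
noncomputable def hOne {k : Type} [Field k] {s : ℕ} (P : Fin s → Fin 2 → k) (d : ℕ)
    (w : Fin s → ℕ) : ℤ := dimL P d w - virtdim d w

/-- The number `max 2 (h⁰(C) - h⁰(C - E i))`, where `C` has the class `d H - ∑ w i E i`. -/
noncomputable def cone {k : Type} [Field k] {s : ℕ} (P : Fin s → Fin 2 → k) (d : ℕ)
    (w : Fin s → ℕ) (i : Fin s) : ℕ :=
  max 2 (hZero P d w - hZero P d (Function.update w i (w i + 1))).toNat

/-- The classes of the finite list: the number of the points minus four, the degree and the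
multiplicities. -/
def Exceptions (κ : ℕ) : Set (Σ r : ℕ, ℕ × (Fin (r + 4) → ℕ)) :=
  {x | ∃ c, 6 ≤ c ∧ c ≤ κ ∧ Remaining c x.1 x.2.1 x.2.2}

theorem result (κ : ℕ) : (Exceptions κ).Finite ∧
    ((∀ x ∈ Exceptions κ, NonSpecial x.1 x.2.1 x.2.2) →
      ∀ (k : Type) [Field k] [CharZero k] [IsAlgClosed k] (s : ℕ), 4 ≤ s →
        ∀ P : Fin s → Fin 2 → k,
          AlgebraicIndependent ℚ (fun ij : Fin s × Fin 2 => P ij.1 ij.2) →
          ∀ (d : ℕ) (w : Fin s → ℕ) (C : MvPolynomial (Fin 3) k), Curve P C d w →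
            (∑ i, if cone P d w i < w i then w i else 0) ≤ 3 * d + κ →
            hOne P d w = 0 ∧
              (inter d w d w < 0 → inter d w d w = -1 ∧ interK d w = -1)) := by
  classical
  constructor
  · obtain ⟨D, hD⟩ : ∃ D, D = 2 * (κ + 6) ^ 2 := ⟨_, rfl⟩
    obtain ⟨M, hM⟩ : ∃ M, M = 3 * D + κ := ⟨_, rfl⟩
    refine Set.Finite.subset (Finset.finite_toSet ((Finset.range (M + 1)).sigma fun r =>
      Finset.range (D + 1) ×ˢ Fintype.piFinset fun _ : Fin (r + 4) => Finset.range (M + 1))) ?_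
    rintro ⟨r, d, m⟩ ⟨c, hc1, hc2, a1, a2, a3, a4, a5, a6, a7, a8⟩
    simp only at a1 a2 a3 a4 a5 a6 a7 a8
    have hdD : d ≤ D := by
      rw [hD]
      refine a7.trans (Nat.mul_le_mul_left _ (Nat.pow_le_pow_left (by omega) 2))
    have hsum : ∑ i, m i ≤ M := by
      rw [a6, hM]
      omega
    have hr : r ≤ M := by
      have h1 : (Finset.univ : Finset (Fin (r + 4))).card • 2 ≤ ∑ i, m i :=
        Finset.card_nsmul_le_sum _ _ _ fun i _ => a3 i
      rw [Finset.card_univ, Fintype.card_fin, smul_eq_mul] at h1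
      omega
    rw [Finset.mem_coe, Finset.mem_sigma]
    refine ⟨Finset.mem_range.2 (by simpa using Nat.lt_succ_of_le hr), ?_⟩
    rw [Finset.mem_product, Fintype.mem_piFinset]
    refine ⟨Finset.mem_range.2 (Nat.lt_succ_of_le hdD), fun i => Finset.mem_range.2 ?_⟩
    have h1 : m i ≤ ∑ i, m i := Finset.single_le_sum (fun _ _ => Nat.zero_le _) (Finset.mem_univ i)
    show m i < M + 1
    omega
  · intro H k _ _ _ s hs P hP d w C hC hκ
    obtain ⟨r, rfl⟩ : ∃ r, s = r + 4 := ⟨s - 4, by omega⟩
    obtain ⟨h1, h2, h3⟩ := SH.curve_iff.1 hC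
    have hSt : N108.ZZ.Stm (max κ 5) := by
      refine T9h37.DP.stm_of_remaining _ fun c hc1 hc2 r d m hm => ?_
      exact H ⟨r, d, m⟩ ⟨c, hc1, by omega, hm⟩
    have hsp : hOne P d w = T9h37.DP.sp P d w := by
      unfold hOne T9h37.DP.sp
      rw [SH.dimL_eq, SH.virtdim_eq]
      ring
    have hz : ∀ u : Fin (r + 4) → ℕ, hZero P d u =
        (Module.finrank k ↥(W609.CR.VS (fun j => W609.CR.aff (P j)) u d) : ℤ) := by
      intro u
      unfold hZero
      rw [SH.dimL_eq]
      ring
    have hcone : ∀ i, cone P d w i = max 2 (T9h37.DP.rk P d w i) := by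
      intro i
      unfold cone T9h37.DP.rk
      rw [hz, hz]
      omega
    obtain ⟨B, hB⟩ : ∃ B : Finset (Fin (r + 4)),
      B = Finset.univ.filter fun i => cone P d w i < w i := ⟨_, rfl⟩
    have hBm : ∀ i, i ∈ B ↔ cone P d w i < w i := fun i => by
      rw [hB, Finset.mem_filter]
      simp
    have hsum : ∑ i ∈ B, w i ≤ 3 * d + max κ 5 := by
      rw [hB, Finset.sum_filter]
      exact hκ.trans (Nat.add_le_add_left (le_max_left _ _) _)
    have h4 := T9h37.DP.sp_rs_zero hSt (by omega) hP h1 h2 h3 B hsum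
    have h5 := T9h37.DP.sp_forget hP h1 h2 h3 B (fun i hi => by
      rw [hBm, hcone] at hi
      omega)
    have h6 : T9h37.DP.sp P d w = 0 := h5.symm.trans h4
    refine ⟨by rw [hsp, h6], fun hneg => ?_⟩
    rw [SH.inter_eq] at hneg ⊢
    rw [SH.interK_eq]
    obtain ⟨b1, b2⟩ := T9h37.DP.neg_of_nonsp hP h1 h2 h3 (by
      unfold T9h37.DP.sp at h6
      linarith) hneg
    exact ⟨b1, by rw [b2]⟩

end Pool.Agent.Results.MP_0dccba_ag.PrimeCanonicalDegree
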