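import Mathlib
import Pool.Agent.T9h37.DP.Forget

set_option autoImplicit false

/-!
# Prime divisors: points of multiplicity one and two can be forgotten

Let `k` be an algebraically closed field of characteristic zero, `X` the blow-up of the plane at
`s ≥ 4` generic points, `C` a prime divisor on `X`, of class `d H - ∑ w i E i`, and `S` any set of the
points. Let `C_S` be the image of `C` on the blow-up of the plane at the points in `S` only, of class
`d H - ∑_{i ∈ S} w i E i`. Then
`h¹(C_S) ≤ h¹(C) ≤ h¹(C_S) + ∑_{i ∉ S} (w i - 1) (w i - 2) / 2`.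
So `h¹(C) = h¹(C_S)` if `w i ≤ 2` for all `i ∉ S`: generic double points and simple points of a prime
divisor always impose independent conditions. If `∑_{i ∈ S} w i ≤ 3 d + 5`, that is, if the
intersection number of `C_S` with the canonical class is at most five, then `h¹(C_S) = 0`, so that
`h¹(C) ≤ ∑_{i ∉ S} (w i - 1) (w i - 2) / 2`.

In particular `h¹(C) = 0` for every prime divisor with `∑_{w i ≥ 3} w i ≤ 3 d + 5`, with any number of
further simple and double points, and if `C ^ 2 < 0` then such a `C` is a `(-1)`-curve.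
-/

namespace Pool.Agent.Results.MP_0dccba_ag.PrimeDoublePoints

open MvPolynomial Pool.Agent.TH167 Pool.Agent.TH167.SHDefs

/-- `h¹` of the class `d H - ∑ w i E i`: the dimension of the linear system minus the virtual one. -/
noncomputable def hOne {k : Type} [Field k] {s : ℕ} (P : Fin s → Fin 2 → k) (d : ℕ)
    (w : Fin s → ℕ) : ℤ := dimL P d w - virtdim d w

/-- The multiplicities at the points of `S`, and zero at the other points. The class
`(d, restrict S w)` is the class of the image of a curve of class `(d, w)` on the blow-up at the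
points of `S` (pulled back to the blow-up at all points). -/
def restrict {s : ℕ} (S : Finset (Fin s)) (w : Fin s → ℕ) : Fin s → ℕ :=
  fun i => if i ∈ S then w i else 0

theorem result (k : Type) [Field k] [CharZero k] [IsAlgClosed k] (s : ℕ) (hs : 4 ≤ s)
    (P : Fin s → Fin 2 → k)
    (hP : AlgebraicIndependent ℚ (fun ij : Fin s × Fin 2 => P ij.1 ij.2))
    (d : ℕ) (w : Fin s → ℕ) (C : MvPolynomial (Fin 3) k) (hC : Curve P C d w)
    (S : Finset (Fin s)) :
    hOne P d (restrict S w) ≤ hOne P d w ∧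
    hOne P d w ≤ hOne P d (restrict S w) + ∑ i ∈ Sᶜ, ((w i - 1).choose 2 : ℤ) ∧
    ((∀ i ∈ Sᶜ, w i ≤ 2) → hOne P d w = hOne P d (restrict S w)) ∧
    (∑ i ∈ S, w i ≤ 3 * d + 5 → hOne P d (restrict S w) = 0 ∧
      ((∀ i ∈ Sᶜ, w i ≤ 2) → hOne P d w = 0 ∧
        (inter d w d w < 0 → inter d w d w = -1 ∧ interK d w = -1))) := by
  classical
  obtain ⟨r, rfl⟩ : ∃ r, s = r + 4 := ⟨s - 4, by omega⟩
  obtain ⟨h1, h2, h3⟩ := SH.curve_iff.1 hC
  have hsp : ∀ u : Fin (r + 4) → ℕ, hOne P d u = T9h37.DP.sp P d u := by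
    intro u
    unfold hOne T9h37.DP.sp
    rw [SH.dimL_eq, SH.virtdim_eq]
    ring
  have hrs : restrict S w = T9h37.DP.rs S w := rfl
  have hsum : ((∑ j, (if j ∈ S then 0 else (w j - 1).choose 2) : ℕ) : ℤ) =
      ∑ i ∈ Sᶜ, ((w i - 1).choose 2 : ℤ) := by
    rw [← Nat.cast_sum]
    congr 1
    have h4 : Sᶜ = Finset.univ.filter fun j => j ∉ S := by
      ext j
      simp
    rw [h4, Finset.sum_filter]
    refine Finset.sum_congr rfl fun j _ => ?_
    by_cases hj : j ∈ S
    · rw [if_pos hj, if_neg (fun h => h hj)]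
    · rw [if_neg hj, if_pos hj]
  have a1 := T9h37.DP.sp_mono P d (T9h37.DP.rs_le S w)
  have a2 := T9h37.DP.sp_le hP h1 h2 h3 S
  rw [hsum] at a2
  have a3 : (∀ i ∈ Sᶜ, w i ≤ 2) → ∑ i ∈ Sᶜ, ((w i - 1).choose 2 : ℤ) = 0 := by
    intro h
    refine Finset.sum_eq_zero fun i hi => ?_
    have h4 := h i hi
    have h5 : (w i - 1).choose 2 = 0 := Nat.choose_eq_zero_of_lt (by omega)
    rw [h5]
    rfl
  rw [hsp, hsp, hrs]
  refine ⟨a1, a2, fun h => ?_, fun hS => ?_⟩
  · have := a3 h
    linarith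
  · have a4 := T9h37.DP.sp_rs_zero (κ := 5) (N108.ZZ.stm_all 5 le_rfl) (by norm_num) hP h1 h2 h3 S hS
    refine ⟨a4, fun h => ?_⟩
    have a5 := a3 h
    have a6 : T9h37.DP.sp P d w = 0 := by
      have := T9h37.DP.sp_nonneg P d w
      linarith
    refine ⟨a6, fun hneg => ?_⟩
    rw [SH.inter_eq] at hneg ⊢
    rw [SH.interK_eq]
    obtain ⟨b1, b2⟩ := T9h37.DP.neg_of_nonsp hP h1 h2 h3 (by
      unfold T9h37.DP.sp at a6
      linarith) hneg
    exact ⟨b1, by rw [b2]⟩

end Pool.Agent.Results.MP_0dccba_ag.PrimeDoublePoints
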