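import Mathlib
import Pool.Agent.T9h37.DP.Grow

set_option autoImplicit false

/-!
# Prime divisors: tangent cones at the generic points, forgetting points, and Clifford's inequality

Let `k` be an algebraically closed field of characteristic zero, `X` the blow-up of the plane at
`s ≥ 4` generic points, and `C` a prime divisor on `X`, of class `d H - ∑ w i E i`. Let
`t i = max 2 (h⁰(C) - h⁰(C - E i))`; here `h⁰(C) - h⁰(C - E i)` is the dimension of the space of the
tangent cones (forms of degree `w i`) at the point `P i` of the curves in `|C|`.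

1. `h⁰(C) + ∑ i, ∑_{u i < j ≤ w i} min j (t i) ≤ h⁰(d H - ∑ u i E i)` for all `u ≤ w` (`d ≥ 2`).
2. `h¹(C_S) ≤ h¹(C) ≤ h¹(C_S) + ∑_{i ∉ S} (w i + 1 - t i choose 2)` for every set `S` of points and the
   image `C_S` of `C` on the blow-up at the points of `S`. So all points with `w i ≤ t i` (for instance
   `w i ≤ 2`) can be forgotten.
3. `h¹(C) ≤ ∑_T max (w i - t i) 0` or `2 h⁰(C) + ∑_T (2 min (w i) (t i) - w i) ≤ C ^ 2 + 4` for every set
   `T` of points, if `h⁰(C) ≥ 2` or `w i ≥ 1` for some `i ∈ T`.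
4. If `h¹(C) ≠ 0` then `∑_B w i ≥ 3 d + 6` for the set `B` of the points with `w i > t i`, whose tangent
   cones span a space of dimension less than `w i`; and `2 h⁰(C) + ∑_{i ∉ B} w i ≤ C ^ 2 + 4` and
   `2 h¹(C) ≤ ∑_B w i - 3 d + 2` if `h⁰(C) ≥ 2` or some point outside of `B` is on `C`.
-/

namespace Pool.Agent.Results.MP_0dccba_ag.PrimeTangentCones

open MvPolynomial Pool.Agent.TH167 Pool.Agent.TH167.SHDefs

/-- `h⁰` of the class `d H - ∑ w i E i`. -/
noncomputable def hZero {k : Type} [Field k] {s : ℕ} (P : Fin s → Fin 2 → k) (d : ℕ)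
    (w : Fin s → ℕ) : ℤ := dimL P d w + 1

/-- `h¹` of the class `d H - ∑ w i E i`: the dimension of the linear system minus the virtual one. -/
noncomputable def hOne {k : Type} [Field k] {s : ℕ} (P : Fin s → Fin 2 → k) (d : ℕ)
    (w : Fin s → ℕ) : ℤ := dimL P d w - virtdim d w

/-- The number `max 2 (h⁰(C) - h⁰(C - E i))`, where `C` has the class `d H - ∑ w i E i`. -/
noncomputable def cone {k : Type} [Field k] {s : ℕ} (P : Fin s → Fin 2 → k) (d : ℕ)
    (w : Fin s → ℕ) (i : Fin s) : ℕ :=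
  max 2 (hZero P d w - hZero P d (Function.update w i (w i + 1))).toNat

/-- The multiplicities at the points of `S`, and zero at the other points. -/
def restrict {s : ℕ} (S : Finset (Fin s)) (w : Fin s → ℕ) : Fin s → ℕ :=
  fun i => if i ∈ S then w i else 0

theorem result (k : Type) [Field k] [CharZero k] [IsAlgClosed k] (s : ℕ) (hs : 4 ≤ s)
    (P : Fin s → Fin 2 → k)
    (hP : AlgebraicIndependent ℚ (fun ij : Fin s × Fin 2 => P ij.1 ij.2))
    (d : ℕ) (w : Fin s → ℕ) (C : MvPolynomial (Fin 3) k) (hC : Curve P C d w) :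
    -- (1) the number of the conditions
    (2 ≤ d → ∀ u : Fin s → ℕ, (∀ i, u i ≤ w i) →
      hZero P d w + ∑ i, ∑ j ∈ Finset.Ioc (u i) (w i), ((min j (cone P d w i) : ℕ) : ℤ) ≤
        hZero P d u) ∧
    -- (2) forgetting points
    (∀ S : Finset (Fin s), hOne P d (restrict S w) ≤ hOne P d w ∧
      hOne P d w ≤ hOne P d (restrict S w) +
        ∑ i ∈ Sᶜ, ((w i + 1 - cone P d w i).choose 2 : ℤ)) ∧
    -- (3) the inequality of Clifford
    (∀ T : Finset (Fin s), (2 ≤ hZero P d w ∨ ∃ i ∈ T, w i ≠ 0) →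
      hOne P d w ≤ ∑ i ∈ T, ((w i - cone P d w i : ℕ) : ℤ) ∨
        2 * hZero P d w + ∑ i ∈ T, (2 * min (w i : ℤ) (cone P d w i) - w i) ≤
          inter d w d w + 4) ∧
    -- (4) special prime divisors
    (hOne P d w ≠ 0 → ∀ B : Finset (Fin s), (∀ i, i ∈ B ↔ cone P d w i < w i) →
      3 * d + 6 ≤ ∑ i ∈ B, w i ∧ hOne P d (restrict B w) = hOne P d w ∧
      ((2 ≤ hZero P d w ∨ ∃ i, i ∉ B ∧ w i ≠ 0) →
        2 * hZero P d w + ∑ i ∈ Bᶜ, (w i : ℤ) ≤ inter d w d w + 4 ∧
        2 * hOne P d w ≤ ∑ i ∈ B, (w i : ℤ) - 3 * d + 2)) := by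
  classical
  obtain ⟨r, rfl⟩ : ∃ r, s = r + 4 := ⟨s - 4, by omega⟩
  obtain ⟨h1, h2, h3⟩ := SH.curve_iff.1 hC
  have hsp : ∀ u : Fin (r + 4) → ℕ, hOne P d u = T9h37.DP.sp P d u := by
    intro u
    unfold hOne T9h37.DP.sp
    rw [SH.dimL_eq, SH.virtdim_eq]
    ring
  have hz : ∀ u : Fin (r + 4) → ℕ, hZero P d u =
      (Module.finrank k ↥(W609.CR.VS (fun j => W609.CR.aff (P j)) u d) : ℤ) := by
    intro u
    unfold hZero
    rw [SH.dimL_eq]
    ring
  have hcone : ∀ i, cone P d w i = max 2 (T9h37.DP.rk P d w i) := by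
    intro i
    unfold cone T9h37.DP.rk
    rw [hz, hz]
    omega
  have hχ : 2 * hZero P d w = inter d w d w + (3 * d - ∑ i, (w i : ℤ)) + 2 + 2 * hOne P d w := by
    have h4 := SH.two_chi d w
    rw [hsp, hz, SH.inter_eq]
    unfold T9h37.DP.sp
    unfold SH.kk at h4
    linarith
  have hrs : ∀ S, restrict S w = T9h37.DP.rs S w := fun _ => rfl
  have hif : ∀ (S : Finset (Fin (r + 4))) (f : Fin (r + 4) → ℕ),
      ((∑ j, (if j ∈ S then 0 else f j) : ℕ) : ℤ) = ∑ j ∈ Sᶜ, (f j : ℤ) := by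
    intro S f
    rw [← Nat.cast_sum]
    congr 1
    have h5 : Sᶜ = Finset.univ.filter fun j => j ∉ S := by
      ext j
      simp
    rw [h5, Finset.sum_filter]
    refine Finset.sum_congr rfl fun j _ => ?_
    by_cases hj : j ∈ S
    · rw [if_pos hj, if_neg (fun h => h hj)]
    · rw [if_neg hj, if_pos hj]
  have forget : ∀ S : Finset (Fin (r + 4)), hOne P d (restrict S w) ≤ hOne P d w ∧
      hOne P d w ≤ hOne P d (restrict S w) +
        ∑ i ∈ Sᶜ, ((w i + 1 - cone P d w i).choose 2 : ℤ) := by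
    intro S
    rw [hsp, hsp, hrs]
    refine ⟨T9h37.DP.sp_mono P d (T9h37.DP.rs_le S w), ?_⟩
    have h4 := T9h37.DP.sp_le2 hP h1 h2 h3 S
    rw [hif] at h4
    simp only [← hcone] at h4
    exact h4
  have cliff : ∀ T : Finset (Fin (r + 4)), (2 ≤ hZero P d w ∨ ∃ i ∈ T, w i ≠ 0) →
      hOne P d w ≤ ∑ i ∈ T, ((w i - cone P d w i : ℕ) : ℤ) ∨
        2 * hZero P d w + ∑ i ∈ T, (2 * min (w i : ℤ) (cone P d w i) - w i) ≤
          inter d w d w + 4 := by
    intro T hT
    have h4 := T9h37.DP.clifford2 hP h1 h2 h3 T (by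
      rcases hT with hT | hT
      · left
        rw [hz] at hT
        exact_mod_cast hT
      · exact Or.inr hT)
    simp only [← hcone] at h4
    rw [hsp, hz, SH.inter_eq]
    rcases h4 with h4 | h4
    · left
      push_cast at h4 ⊢
      exact h4
    · right
      rw [Finset.sum_sub_distrib, ← Finset.mul_sum]
      have h6 : ((∑ j ∈ T, min (w j) (cone P d w j) : ℕ) : ℤ) =
          ∑ j ∈ T, min (w j : ℤ) (cone P d w j) := by
        push_cast
        rfl
      rw [h6] at h4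
      push_cast at h4
      linarith
  refine ⟨fun hd u hu => ?_, forget, cliff, fun hne B hB => ?_⟩
  · have hGm : C ∈ W609.CR.VS (fun j => W609.CR.aff (P j)) w d :=
      (SH.mem_VS _ _ _ _).2 ⟨h2, fun j => (h3 j).1⟩
    have h4 := T9h37.DP.main_ineq hd hP h1 hGm (∑ i, w i) u hu (by omega)
    rw [hz, hz]
    have h5 : ∑ i, T9h37.DP.cn (T9h37.DP.rk P d w i) (w i) =
        ∑ i, T9h37.DP.cn (T9h37.DP.rk P d w i) (u i) +
          ∑ i, ∑ j ∈ Finset.Ioc (u i) (w i), min j (cone P d w i) := by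
      rw [← Finset.sum_add_distrib]
      refine Finset.sum_congr rfl fun i _ => ?_
      rw [hcone]
      exact T9h37.DP.cn_sum _ _ _ (hu i)
    have h6 : Module.finrank k ↥(W609.CR.VS (fun j => W609.CR.aff (P j)) w d) +
        ∑ i, ∑ j ∈ Finset.Ioc (u i) (w i), min j (cone P d w i) ≤
        Module.finrank k ↥(W609.CR.VS (fun j => W609.CR.aff (P j)) u d) := by omega
    have h7 : ((Module.finrank k ↥(W609.CR.VS (fun j => W609.CR.aff (P j)) w d) +
        ∑ i, ∑ j ∈ Finset.Ioc (u i) (w i), min j (cone P d w i) : ℕ) : ℤ) ≤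
        ((Module.finrank k ↥(W609.CR.VS (fun j => W609.CR.aff (P j)) u d) : ℕ) : ℤ) := by
      exact_mod_cast h6
    rw [Nat.cast_add] at h7
    have h8 : ((∑ i, ∑ j ∈ Finset.Ioc (u i) (w i), min j (cone P d w i) : ℕ) : ℤ) =
        ∑ i, ∑ j ∈ Finset.Ioc (u i) (w i), ((min j (cone P d w i) : ℕ) : ℤ) := by
      rw [Nat.cast_sum]
      exact Finset.sum_congr rfl fun i _ => Nat.cast_sum _ _
    rw [h8] at h7
    exact h7
  · have hnn : 0 ≤ hOne P d w := by
      rw [hsp]
      exact T9h37.DP.sp_nonneg P d w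
    have h0 : ∑ i ∈ Bᶜ, ((w i + 1 - cone P d w i).choose 2 : ℤ) = 0 := by
      refine Finset.sum_eq_zero fun i hi => ?_
      rw [Finset.mem_compl, hB] at hi
      rw [Nat.choose_eq_zero_of_lt (by omega)]
      rfl
    have heq : hOne P d (restrict B w) = hOne P d w := by
      have := forget B
      rw [h0] at this
      linarith [this.1, this.2]
    refine ⟨?_, heq, fun hT => ?_⟩
    · by_contra hcon
      apply hne
      rw [← heq, hsp, hrs]
      exact T9h37.DP.sp_rs_zero (κ := 5) (N108.ZZ.stm_all 5 le_rfl) (by norm_num) hP h1 h2 h3 B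
        (by omega)
    · have h5 := cliff Bᶜ (by
        rcases hT with h | ⟨i, hi, hi2⟩
        · exact Or.inl h
        · exact Or.inr ⟨i, by rwa [Finset.mem_compl], hi2⟩)
      have h01 : ∑ i ∈ Bᶜ, ((w i - cone P d w i : ℕ) : ℤ) = 0 := by
        refine Finset.sum_eq_zero fun i hi => ?_
        rw [Finset.mem_compl, hB] at hi
        omega
      have h02 : ∑ i ∈ Bᶜ, (2 * min (w i : ℤ) (cone P d w i) - w i) = ∑ i ∈ Bᶜ, (w i : ℤ) := by
        refine Finset.sum_congr rfl fun i hi => ?_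
        rw [Finset.mem_compl, hB] at hi
        omega
      rw [h01, h02] at h5
      have h6 := h5.resolve_left (fun h => hne (le_antisymm h hnn))
      have h7 := Finset.sum_add_sum_compl B fun i => (w i : ℤ)
      exact ⟨h6, by linarith⟩

end Pool.Agent.Results.MP_0dccba_ag.PrimeTangentCones
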